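import Pool.Agent.SCT.StmtsB

/-!
# Squad SCT, row PTN (helper86): projective tangent spaces
-/

set_option autoImplicit false

namespace Pool.Agent.SCT.H86

open MvPolynomial Pool.Agent.SCT

variable {k Ω ι : Type} [Field k] [Field Ω] [Algebra k Ω] [Fintype ι]

theorem dd_zero_left (y v : ι → Ω) : dd (0 : MvPolynomial ι k) y v = 0 := by
  simp [dd]

theorem dd_add_left (p q : MvPolynomial ι k) (y v : ι → Ω) :
    dd (p + q) y v = dd p y v + dd q y v := by
  simp only [dd, map_add, mul_add, Finset.sum_add_distrib]

theorem dd_sum_left {κ : Type} (s : Finset κ) (p : κ → MvPolynomial ι k) (y v : ι → Ω) :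
    dd (∑ e ∈ s, p e) y v = ∑ e ∈ s, dd (p e) y v := by
  classical
  induction s using Finset.induction_on with
  | empty => simp [dd]
  | insert a s ha ih => rw [Finset.sum_insert ha, Finset.sum_insert ha, dd_add_left, ih]

theorem dd_mul_left (p q : MvPolynomial ι k) (y v : ι → Ω) :
    dd (p * q) y v = aeval y p * dd q y v + aeval y q * dd p y v := by
  simp only [dd, Derivation.leibniz, smul_eq_mul, map_add, map_mul, mul_add,
    Finset.sum_add_distrib, Finset.mul_sum]
  congr 1
  · exact Finset.sum_congr rfl fun i _ => by ring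
  · exact Finset.sum_congr rfl fun i _ => by ring

theorem dd_X_pow (c : ι) (m : ℕ) (y v : ι → Ω) :
    y c * dd (X c ^ m : MvPolynomial ι k) y v = (m : Ω) * y c ^ m * v c := by
  classical
  have h : dd (X c ^ m : MvPolynomial ι k) y v = (m : Ω) * y c ^ (m - 1) * v c := by
    unfold dd
    rw [Finset.sum_eq_single c]
    · rw [Derivation.leibniz_pow, pderiv_X_self]
      simp
      ring
    · intro i _ hi
      rw [Derivation.leibniz_pow, pderiv_X_of_ne hi.symm]
      simp
    · intro h
      exact absurd (Finset.mem_univ c) h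
  rw [h]
  rcases m with _ | m
  · simp
  · rw [Nat.add_sub_cancel, pow_succ]
    ring

/-- a form of degree `e` at the multiple of a point -/
theorem aeval_mul {h : MvPolynomial ι k} {e : ℕ} (hh : h.IsHomogeneous e) (c : Ω) (z : ι → Ω) :
    aeval (fun i => c * z i) h = c ^ e * aeval z h := by
  classical
  rw [aeval_def, aeval_def, eval₂_eq', eval₂_eq', Finset.mul_sum]
  refine Finset.sum_congr rfl fun d hd => ?_
  have h1 : ∑ i, d i = e := by
    have h2 := hh (mem_support_iff.1 hd)
    rw [← h2, Finsupp.weight_apply, Finsupp.sum_fintype]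
    · simp
    · simp
  simp only [mul_pow, Finset.prod_mul_distrib]
  rw [Finset.prod_pow_eq_pow_sum, h1]
  ring

theorem dd_mul_pt {h : MvPolynomial ι k} {e : ℕ} (hh : h.IsHomogeneous e) (c : Ω) (z v : ι → Ω) :
    c * dd h (fun i => c * z i) v = c ^ e * dd h z v := by
  unfold dd
  rcases e with _ | e
  · have h0 : ∀ i, pderiv i h = 0 := by
      intro i
      rw [← totalDegree_zero_iff_isHomogeneous, totalDegree_eq_zero_iff_eq_C] at hh
      rw [hh, pderiv_C]
    simp [h0]
  · rw [Finset.mul_sum, Finset.mul_sum]
    refine Finset.sum_congr rfl fun i _ => ?_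
    have h1 : (pderiv i h).IsHomogeneous e := by
      have h2 := hh.pderiv (i := i)
      rwa [Nat.add_sub_cancel] at h2
    rw [aeval_mul h1, pow_succ]
    ring

theorem dd_self {h : MvPolynomial ι k} {e : ℕ} (hh : h.IsHomogeneous e) (z : ι → Ω) :
    dd h z z = (e : Ω) * aeval z h := by
  have h1 := congrArg (aeval z) hh.sum_X_mul_pderiv
  rw [map_sum] at h1
  unfold dd
  rw [nsmul_eq_mul, map_mul, map_natCast] at h1
  rw [← h1]
  exact Finset.sum_congr rfl fun i _ => by rw [map_mul, aeval_X]

/-- the homogenisation -/
theorem key (c : ι) (z v : ι → Ω) (r : Ω) (hr : r ≠ 0) (hz : z c = 1)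
    (hv : v ∈ ptan k (fun i => r * z i)) : (v - v c • z) ∈ tan k z := by
  classical
  intro g hg
  set N := g.totalDegree with hN
  set y : ι → Ω := fun i => r * z i with hy
  have hyc : y c = r := by rw [hy]; simp [hz]
  set G : MvPolynomial ι k := ∑ e ∈ Finset.range (N + 1), X c ^ (N - e) * homogeneousComponent e g
    with hG
  have hsum : ∑ e ∈ Finset.range (N + 1), homogeneousComponent e g = g := sum_homogeneousComponent g
  have hGh : G.IsHomogeneous N := by
    apply IsHomogeneous.sum
    intro e he
    have h1 := ((isHomogeneous_X k c).pow (N - e)).mul (homogeneousComponent_isHomogeneous e g)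
    have h2 : 1 * (N - e) + e = N := by
      have := Finset.mem_range.1 he
      omega
    rwa [h2] at h1
  have hG0 : aeval y G = 0 := by
    rw [hG, map_sum]
    have h1 : ∀ e ∈ Finset.range (N + 1), aeval y (X c ^ (N - e) * homogeneousComponent e g) =
        r ^ N * aeval z (homogeneousComponent e g) := by
      intro e he
      rw [map_mul, map_pow, aeval_X, hyc, hy, aeval_mul (homogeneousComponent_isHomogeneous e g),
        ← mul_assoc, ← pow_add]
      have := Finset.mem_range.1 he
      congr 2
      omega
    rw [Finset.sum_congr rfl h1, ← Finset.mul_sum, ← map_sum, hsum, hg, mul_zero]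
  have hv0 := hv G N hGh hG0
  have h2 : r * dd G y v = r ^ N * (dd g z v - v c * dd g z z) := by
    have h3 : ∀ e ∈ Finset.range (N + 1), r * dd (X c ^ (N - e) * homogeneousComponent e g) y v =
        r ^ N * (dd (homogeneousComponent e g) z v + (N : Ω) * v c *
          aeval z (homogeneousComponent e g) - v c * dd (homogeneousComponent e g) z z) := by
      intro e he
      have he' := Finset.mem_range.1 he
      have hh := homogeneousComponent_isHomogeneous e g
      set h := homogeneousComponent e g
      have h4 := dd_X_pow (k := k) c (N - e) y v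
      rw [hyc] at h4
      have h5 := dd_mul_pt hh r z v
      have h6 : r ^ (N - e) * r ^ e = r ^ N := by
        rw [← pow_add]
        congr 1
        omega
      have h7 : ((N - e : ℕ) : Ω) = (N : Ω) - (e : Ω) := by
        rw [Nat.cast_sub (by omega)]
      have h8 := aeval_mul hh r z
      rw [dd_mul_left, map_pow, aeval_X, hyc, dd_self hh]
      calc r * (r ^ (N - e) * dd h y v + aeval y h * dd (X c ^ (N - e)) y v)
          = r ^ (N - e) * (r * dd h y v) + aeval y h * (r * dd (X c ^ (N - e)) y v) := by ring
        _ = r ^ (N - e) * (r ^ e * dd h z v) +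
            (r ^ e * aeval z h) * ((N - e : ℕ) * r ^ (N - e) * v c) := by
              rw [h4, ← h5, ← h8]
        _ = (r ^ (N - e) * r ^ e) * (dd h z v + ((N : Ω) - (e : Ω)) * v c * aeval z h) := by
              rw [h7]; ring
        _ = _ := by rw [h6]; ring
    rw [hG, dd_sum_left, Finset.mul_sum, Finset.sum_congr rfl h3, ← Finset.mul_sum,
      Finset.sum_sub_distrib, Finset.sum_add_distrib, ← Finset.mul_sum, ← Finset.mul_sum, ← map_sum,
      ← dd_sum_left, ← dd_sum_left, hsum, hg, mul_zero, add_zero]
  rw [hv0, mul_zero] at h2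
  have h9 : dd g z v - v c * dd g z z = 0 := by
    rcases mul_eq_zero.1 h2.symm with h | h
    · exact absurd h (pow_ne_zero _ hr)
    · exact h
  have h10 : dd g z (v - v c • z) = dd g z v - v c * dd g z z := by
    simp only [dd, Pi.sub_apply, Pi.smul_apply, smul_eq_mul, sub_mul, Finset.sum_sub_distrib,
      Finset.mul_sum, mul_assoc]
  rw [h10, h9]

/-- **Row PTN.** -/
theorem ptn (hJac : JacStmt) : PtnStmt := by
  intro k Ω _ _ _ _ ι _ y d hy hd
  classical
  obtain ⟨c, hc⟩ : ∃ c, y c ≠ 0 := by
    by_contra h
    push Not at h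
    exact hy (funext h)
  set z : ι → Ω := fun i => y i / y c with hz
  have hzc : z c = 1 := div_self hc
  have hyz : y = fun i => y c * z i := by
    funext i
    rw [hz]
    field_simp
  have h1 : Module.finrank Ω (tan k z) ≤ d := by
    apply hJac k Ω ι z d
    have h2 := hd
    unfold DimLe at h2
    rwa [rat_eq hc] at h2
  have hmem : ∀ v ∈ ptan k y, (v - v c • z) ∈ tan k z := by
    intro v hv
    rw [hyz] at hv
    exact key c z v (y c) hc hzc hv
  let φ : ptan k y →ₗ[Ω] (tan k z × Ω) :=
    { toFun := fun v => (⟨v.1 - v.1 c • z, hmem v.1 v.2⟩, v.1 c)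
      map_add' := by
        intro a b
        refine Prod.ext (Subtype.ext ?_) rfl
        funext i
        simp only [Submodule.coe_add, Pi.add_apply, Pi.sub_apply, Pi.smul_apply, smul_eq_mul,
          Prod.fst_add]
        ring
      map_smul' := by
        intro r a
        refine Prod.ext (Subtype.ext ?_) rfl
        funext i
        simp only [Submodule.coe_smul, Pi.smul_apply, Pi.sub_apply, smul_eq_mul, RingHom.id_apply,
          Prod.smul_fst]
        ring }
  have hφ : Function.Injective φ := by
    intro a b hab
    have h2 : a.1 c = b.1 c := congrArg Prod.snd hab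
    have h3 : a.1 - a.1 c • z = b.1 - b.1 c • z := congrArg (fun t => (Prod.fst t).1) hab
    apply Subtype.ext
    rw [h2] at h3
    exact sub_left_injective h3
  have h4 := LinearMap.finrank_le_finrank_of_injective hφ
  rw [Module.finrank_prod, Module.finrank_self] at h4
  omega

end Pool.Agent.SCT.H86
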